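import Pool.Agent.MP_28f8a1_an.H42.Mass

/-! A cycle together with a fixed point, and their invariant quadratic differential. -/

set_option autoImplicit false

namespace Pool.Agent.MP_1071ec_an

open MeasureTheory Metric Set Real Filter Topology Polynomial
open Pool.Agent.MP_28f8a1_an Pool.Agent.MP_28f8a1_an.H42
open scoped ENNReal

/-- A cycle `o` of `fq e c` and a fixed point `α` outside it. -/
structure Cy (e : ℕ) where
  o : Cyc e
  α : ℂ
  αfix : fq e o.c α = α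
  αnot : α ∉ o.B
  α0 : α ≠ 0

namespace Cy

variable {e : ℕ} (Y : Cy e)

abbrev c : ℂ := Y.o.c

/-- The cycle. -/
abbrev K : Finset ℂ := Y.o.B

abbrev ρ : ℂ := Y.o.ρ

/-- All poles. -/
noncomputable def B : Finset ℂ := insert Y.α Y.K

/-- The logarithmic derivative of the multiplier of the cycle with respect to the multiplier of
the fixed point. -/
noncomputable def s : ℂ := Y.o.S * (Y.α * (1 - lam e Y.α) / e)

noncomputable def w (b : ℂ) : ℂ := if b = Y.α then -Y.s else 1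

noncomputable def a (b : ℂ) : ℂ := if b = Y.α then -Y.o.S else Y.o.a b

/-- The quadratic differential. -/
noncomputable def q (z : ℂ) : ℂ := ∑ b ∈ Y.B, (Y.w b * ((z - b) ^ 2)⁻¹ + Y.a b * (z - b)⁻¹)

noncomputable def D : ℂ[X] := ∏ b ∈ Y.B, (X - C b)

noncomputable def Db (b : ℂ) : ℂ[X] := ∏ b' ∈ Y.B.erase b, (X - C b')

noncomputable def N : ℂ[X] := ∑ b ∈ Y.B, (C (Y.w b) + C (Y.a b) * (X - C b)) * Y.Db b ^ 2

noncomputable def M : ℂ[X] := 2 * derivative Y.D * Y.N - Y.D * derivative Y.N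

/-- `(z - b) ^ 2 * q z`, extended over `b`. -/
noncomputable def U (b z : ℂ) : ℂ := Y.N.eval z / (Y.Db b).eval z ^ 2

/-- The error density of one pull-back step. -/
noncomputable def err (y : ℂ) : ℝ := loss e Y.c Y.q y

/-- The error density of the pull-back along a branch `h` of order `k`. -/
noncomputable def Err (k : ℕ) (h : ℂ → ℂ) (z : ℂ) : ℝ :=
  ∑ j ∈ Finset.range (k + 1),
    ‖deriv (fun v => (fq e Y.c)^[j] (h v)) z‖ ^ 2 * Y.err ((fq e Y.c)^[j] (h z))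

theorem mem_B {b : ℂ} : b ∈ Y.B ↔ b = Y.α ∨ b ∈ Y.K := Finset.mem_insert

theorem KB {b : ℂ} (hb : b ∈ Y.K) : b ∈ Y.B := Y.mem_B.2 (Or.inr hb)

theorem αB : Y.α ∈ Y.B := Y.mem_B.2 (Or.inl rfl)

theorem ne_α {b : ℂ} (hb : b ∈ Y.K) : b ≠ Y.α := fun h => Y.αnot (h ▸ hb)

theorem card_B : Y.B.card = Y.K.card + 1 := Finset.card_insert_of_notMem Y.αnot

theorem sum_B (g : ℂ → ℂ) : ∑ b ∈ Y.B, g b = g Y.α + ∑ b ∈ Y.K, g b := Finset.sum_insert Y.αnot

theorem w_K {b : ℂ} (hb : b ∈ Y.K) : Y.w b = 1 := if_neg (Y.ne_α hb)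

theorem a_K {b : ℂ} (hb : b ∈ Y.K) : Y.a b = Y.o.a b := if_neg (Y.ne_α hb)

theorem w_α : Y.w Y.α = -Y.s := if_pos rfl

theorem a_α : Y.a Y.α = -Y.o.S := if_pos rfl

theorem ne : Y.K.Nonempty := Y.o.ne

theorem fix (b : ℂ) (hb : b ∈ Y.K) : (fq e Y.c)^[Y.K.card] b = b := Y.o.fix b hb

theorem mult (b : ℂ) (hb : b ∈ Y.K) : Pd e Y.c b Y.K.card = Y.ρ := Y.o.mult b hb

theorem α_iter (k : ℕ) : (fq e Y.c)^[k] Y.α = Y.α := Function.iterate_fixed Y.αfix k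

theorem fixB (b : ℂ) (hb : b ∈ Y.B) : (fq e Y.c)^[Y.K.card] b = b := by
  rcases Y.mem_B.1 hb with rfl | hb
  exacts [Y.α_iter _, Y.fix b hb]

theorem maps (b : ℂ) (hb : b ∈ Y.B) : fq e Y.c b ∈ Y.B := by
  rcases Y.mem_B.1 hb with rfl | hb
  · rw [Y.αfix]
    exact Y.αB
  · exact Y.KB (Y.o.maps b hb)

theorem ne0 (b : ℂ) (hb : b ∈ Y.B) : b ≠ 0 := by
  rcases Y.mem_B.1 hb with rfl | hb
  exacts [Y.α0, Y.o.ne0 b hb]

theorem inj (b : ℂ) (hb : b ∈ Y.B) (b' : ℂ) (hb' : b' ∈ Y.B) (h : fq e Y.c b = fq e Y.c b') :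
    b = b' := by
  rcases Y.mem_B.1 hb with rfl | hb <;> rcases Y.mem_B.1 hb' with rfl | hb'
  · rfl
  · exact absurd (h.symm.trans Y.αfix) (Y.ne_α (Y.o.maps _ hb'))
  · exact absurd (h.trans Y.αfix) (Y.ne_α (Y.o.maps _ hb))
  · exact Y.o.inj _ hb _ hb' h

theorem rho_ne : Y.ρ ≠ 0 := Y.o.rho_ne

theorem iter_memK {b : ℂ} (hb : b ∈ Y.K) (k : ℕ) : (fq e Y.c)^[k] b ∈ Y.K := Y.o.iter_mem hb k

theorem iter_mem {b : ℂ} (hb : b ∈ Y.B) (k : ℕ) : (fq e Y.c)^[k] b ∈ Y.B := by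
  induction k with
  | zero => exact hb
  | succ k ih =>
    rw [Function.iterate_succ_apply']
    exact Y.maps _ ih

theorem iter_inj {b b' : ℂ} (hb : b ∈ Y.B) (hb' : b' ∈ Y.B) (k : ℕ)
    (h : (fq e Y.c)^[k] b = (fq e Y.c)^[k] b') : b = b' := by
  induction k with
  | zero => exact h
  | succ k ih =>
    rw [Function.iterate_succ_apply', Function.iterate_succ_apply'] at h
    exact ih (Y.inj _ (Y.iter_mem hb k) _ (Y.iter_mem hb' k) h)

theorem q_split (z : ℂ) :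
    Y.q z = Y.o.q z - (Y.s * ((z - Y.α) ^ 2)⁻¹ + Y.o.S * (z - Y.α)⁻¹) := by
  rw [q, Y.sum_B, Y.w_α, Y.a_α, Cyc.q, Finset.sum_congr rfl fun b hb => by
    rw [Y.w_K hb, Y.a_K hb, one_mul]]
  ring

theorem Db_ne {b z : ℂ} (hz : z ∈ Y.B → z = b) : (Y.Db b).eval z ≠ 0 := by
  rw [Db, eval_prod]
  refine Finset.prod_ne_zero_iff.2 fun b' hb' => ?_
  obtain ⟨h1, h2⟩ := Finset.mem_erase.1 hb'
  simp only [eval_sub, eval_X, eval_C, sub_ne_zero]
  rintro rfl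
  exact h1 (hz h2)

theorem t1048_D {b : ℂ} (hb : b ∈ Y.B) : Y.D = (X - C b) * Y.Db b :=
  (Finset.mul_prod_erase Y.B (fun b => X - C b) hb).symm

theorem t1048_q {z : ℂ} (hz : z ∉ Y.B) : Y.q z = Y.N.eval z / Y.D.eval z ^ 2 := by
  rw [q, N, eval_finsetSum, Finset.sum_div]
  refine Finset.sum_congr rfl fun b hb => ?_
  have h1 : z - b ≠ 0 := sub_ne_zero.2 fun h => hz (h ▸ hb)
  have h2 : (Y.Db b).eval z ≠ 0 := Y.Db_ne fun h => absurd h hz
  rw [Y.t1048_D hb]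
  simp only [eval_mul, eval_sub, eval_X, eval_C, eval_add, eval_pow]
  field_simp

theorem t1048_N' {b : ℂ} (hb : b ∈ Y.B) : Y.N.eval b = Y.w b * (Y.Db b).eval b ^ 2 := by
  rw [N, eval_finsetSum, Finset.sum_eq_single_of_mem b hb]
  · simp
  · intro b' _ hne
    have : (Y.Db b').eval b = 0 := by
      rw [Db, eval_prod]
      exact Finset.prod_eq_zero (Finset.mem_erase.2 ⟨hne.symm, hb⟩) (by simp)
    simp [this]

theorem t1048_N {b : ℂ} (hb : b ∈ Y.K) : Y.N.eval b = (Y.Db b).eval b ^ 2 := by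
  rw [Y.t1048_N' (Y.KB hb), Y.w_K hb, one_mul]

theorem t1048_M {b : ℂ} (hb : b ∈ Y.B) (z : ℂ) : Y.M.eval z =
    2 * ((Y.Db b).eval z + (z - b) * (derivative (Y.Db b)).eval z) * Y.N.eval z -
      (z - b) * (Y.Db b).eval z * (derivative Y.N).eval z := by
  rw [M, Y.t1048_D hb]
  simp [derivative_mul]

theorem t1048_Mb {b : ℂ} (hb : b ∈ Y.K) : Y.M.eval b = 2 * (Y.Db b).eval b ^ 3 := by
  rw [Y.t1048_M (Y.KB hb), Y.t1048_N hb]
  ring

theorem q_eq {b z : ℂ} (hb : b ∈ Y.B) (hz : z ∉ Y.B) : Y.q z = Y.U b z / (z - b) ^ 2 := by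
  have h1 : z - b ≠ 0 := sub_ne_zero.2 fun h => hz (h ▸ hb)
  rw [Y.t1048_q hz, U, Y.t1048_D hb, div_div]
  simp only [eval_mul, eval_sub, eval_X, eval_C]
  congr 1
  ring

theorem U_self' {b : ℂ} (hb : b ∈ Y.B) : Y.U b b = Y.w b := by
  rw [U, Y.t1048_N' hb, mul_div_cancel_right₀ _ (pow_ne_zero 2 (Y.Db_ne fun _ => rfl))]

theorem U_self {b : ℂ} (hb : b ∈ Y.K) : Y.U b b = 1 := by
  rw [Y.U_self' (Y.KB hb), Y.w_K hb]

theorem U_diff {b z : ℂ} (hz : z ∈ Y.B → z = b) : DifferentiableAt ℂ (Y.U b) z := by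
  exact (Y.N.differentiableAt).div ((Y.Db b).differentiableAt.pow 2) (pow_ne_zero 2 (Y.Db_ne hz))

theorem q_diff {z : ℂ} (hz : z ∉ Y.B) : DifferentiableAt ℂ Y.q z := by
  refine DifferentiableAt.fun_sum fun b hb => ?_
  have h1 : z - b ≠ 0 := sub_ne_zero.2 fun h => hz (h ▸ hb)
  have h2 : DifferentiableAt ℂ (fun z : ℂ => z - b) z := differentiableAt_id.sub_const b
  exact (((h2.pow 2).inv (pow_ne_zero 2 h1)).const_mul _).add ((h2.inv h1).const_mul _)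

theorem measurable_q : Measurable Y.q := by
  unfold q
  fun_prop

theorem t1048_E {b : ℂ} (hb : b ∈ Y.B) {t y : ℂ} (hz : b + t * y ∈ Y.B → b + t * y = b) :
    Eu (fun v => Y.U b (b + t * v)) y =
      -Y.M.eval (b + t * y) / (Y.Db b).eval (b + t * y) ^ 3 := by
  have h0 := Y.Db_ne hz
  have h1 : HasDerivAt (fun v : ℂ => b + t * v) t y := by
    simpa using ((hasDerivAt_id y).const_mul t).const_add b
  have h2 := ((Y.N.hasDerivAt (b + t * y)).div (((Y.Db b).hasDerivAt (b + t * y)).pow 2)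
    (pow_ne_zero 2 h0)).comp y h1
  have h3 : deriv (fun v => Y.U b (b + t * v)) y = _ := h2.deriv
  rw [Eu, h3, U, Y.t1048_M hb]
  simp only [Pi.pow_apply]
  generalize (Y.Db b).eval (b + t * y) = d at h0 ⊢
  field_simp
  ring

/-- The three equations in an affine chart at a point of the cycle. -/
theorem chart {b : ℂ} (hb : b ∈ Y.B) {t y : ℂ} (hz : b + t * y ∈ Y.B → b + t * y = b) :
    (Y.U b (b + t * y) = 0 ↔ Y.N.eval (b + t * y) = 0) ∧
    (Eu (fun v => Y.U b (b + t * v)) y = 0 ↔ Y.M.eval (b + t * y) = 0) ∧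
    ∀ w : ℂ, Eu (fun v => Y.U b (b + t * v)) y ^ 2 = w * Y.U b (b + t * y) ^ 3 ↔
      (Y.M ^ 2 - C w * Y.N ^ 3).eval (b + t * y) = 0 := by
  have h0 := Y.Db_ne hz
  have hE := Y.t1048_E hb hz
  refine ⟨?_, ?_, fun w => ?_⟩
  · rw [U, div_eq_zero_iff, or_iff_left (pow_ne_zero 2 h0)]
  · rw [hE, div_eq_zero_iff, or_iff_left (pow_ne_zero 3 h0), neg_eq_zero]
  · rw [hE, U, div_pow, div_pow, ← mul_div_assoc, ← pow_mul, ← pow_mul,
      div_left_inj' (pow_ne_zero _ h0), neg_sq]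
    simp only [eval_sub, eval_pow, eval_mul, eval_C, sub_eq_zero]

theorem t1048_dD : Y.D.natDegree = Y.K.card + 1 := by
  rw [D, natDegree_prod_of_monic _ _ fun b _ => monic_X_sub_C b]
  simp [Y.card_B]

/-- The first moment of the residues of the cycle. -/
theorem moment :
    (e : ℂ) * ∑ b ∈ Y.K, Y.o.a b * b = -(e * Y.K.card) + (e + 1) * Y.c * Y.o.S := by
  have hd : ((e + 1 : ℕ) : ℂ) ≠ 0 := Nat.cast_ne_zero.mpr (Nat.succ_ne_zero e)
  have h1 := Y.o.t1050_sum fun v => Y.o.a v * (v - Y.c)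
  have h2 : ∀ b ∈ Y.K, Y.o.a (fq e Y.c b) * (fq e Y.c b - Y.c) =
      (Y.o.a b * b - e) / ((e + 1 : ℕ) : ℂ) := fun b hb => by
    have h0 := Y.o.ne0 b hb
    rw [Y.o.rc b hb, fq, add_sub_cancel_right, lam]
    field_simp
    ring
  rw [Finset.sum_congr rfl h2, ← Finset.sum_div, div_eq_iff hd, Finset.sum_sub_distrib] at h1
  simp only [mul_sub, Finset.sum_sub_distrib, ← Finset.sum_mul, Finset.sum_const, nsmul_eq_mul]
    at h1
  rw [Cyc.S]
  push_cast at h1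
  linear_combination -h1

theorem sum_a : ∑ b ∈ Y.B, Y.a b = 0 := by
  rw [Y.sum_B, Y.a_α, Finset.sum_congr rfl fun b hb => Y.a_K hb, Cyc.S, neg_add_cancel]

theorem sum_w (he : 1 ≤ e) : ∑ b ∈ Y.B, (Y.w b + Y.a b * b) = 0 := by
  have he' : (e : ℂ) ≠ 0 := Nat.cast_ne_zero.mpr (by omega)
  have h1 := Y.moment
  have h2 := Y.αfix
  rw [fq] at h2
  rw [Y.sum_B, Y.a_α, Y.w_α, Finset.sum_congr rfl fun b hb => by rw [Y.a_K hb, Y.w_K hb],
    Finset.sum_add_distrib, Finset.sum_const, nsmul_eq_mul, mul_one, s, lam]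
  refine mul_left_cancel₀ he' ?_
  push_cast
  field_simp
  linear_combination h1 + (e + 1) * Y.o.S * h2

theorem t1048_dN (he : 1 ≤ e) : Y.N.natDegree + 1 ≤ 2 * Y.K.card := by
  have hP := Y.ne.card_pos
  have hDb : ∀ b ∈ Y.B, (Y.Db b).natDegree = Y.K.card := fun b hb => by
    rw [Db, natDegree_prod_of_monic _ _ fun b _ => monic_X_sub_C b]
    simp [Finset.card_erase_of_mem hb, Y.card_B]
  obtain ⟨N', hN'⟩ : ∃ N' : ℂ[X], N' = ∑ b ∈ Y.B,
      (C (Y.a b * b ^ 2 + 2 * b * Y.w b) * X - C (Y.a b * b ^ 3 + Y.w b * b ^ 2)) * Y.Db b ^ 2 :=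
    ⟨_, rfl⟩
  have h1 : N'.natDegree ≤ 2 * Y.K.card + 1 := by
    rw [hN']
    refine natDegree_sum_le_of_forall_le _ _ fun b hb => ?_
    have h2 : (C (Y.a b * b ^ 2 + 2 * b * Y.w b) * X -
      C (Y.a b * b ^ 3 + Y.w b * b ^ 2)).natDegree ≤ 1 := by compute_degree
    have h3 := natDegree_pow_le (p := Y.Db b) (n := 2)
    have h4 := natDegree_mul_le (p := C (Y.a b * b ^ 2 + 2 * b * Y.w b) * X -
      C (Y.a b * b ^ 3 + Y.w b * b ^ 2)) (q := Y.Db b ^ 2)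
    have := hDb b hb
    omega
  have h2 : X ^ 2 * Y.N = N' := by
    have h3 : X ^ 2 * Y.N = N' + ∑ b ∈ Y.B,
        (C (Y.a b) * (X * Y.D ^ 2) + C (Y.w b + Y.a b * b) * Y.D ^ 2) := by
      rw [N, hN', Finset.mul_sum, ← Finset.sum_add_distrib]
      refine Finset.sum_congr rfl fun b hb => ?_
      rw [Y.t1048_D hb]
      simp only [map_add, map_mul, map_pow, map_ofNat]
      ring
    rw [h3, Finset.sum_add_distrib, ← Finset.sum_mul, ← Finset.sum_mul, ← map_sum, ← map_sum,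
      Y.sum_a, Y.sum_w he]
    simp
  by_cases h0 : Y.N = 0
  · rw [h0, natDegree_zero]
    omega
  · rw [← h2, natDegree_mul (pow_ne_zero 2 X_ne_zero) h0, natDegree_X_pow] at h1
    omega

theorem t1048_dM (he : 1 ≤ e) : Y.M.natDegree + 1 ≤ 3 * Y.K.card := by
  have h1 := Y.t1048_dD
  have h2 := Y.t1048_dN he
  have h3 := natDegree_derivative_le Y.D
  have h4 := natDegree_derivative_le Y.N
  have h5 := natDegree_mul_le (p := 2 * derivative Y.D) (q := Y.N)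
  have h6 := natDegree_mul_le (p := 2) (q := derivative Y.D)
  have h8 := natDegree_sub_le (2 * derivative Y.D * Y.N) (Y.D * derivative Y.N)
  have h9 : (2 : ℂ[X]).natDegree = 0 := natDegree_ofNat 2
  have h7 : (Y.D * derivative Y.N).natDegree + 1 ≤ 3 * Y.K.card := by
    have hP := Y.ne.card_pos
    by_cases h0 : Y.N.natDegree = 0
    · rw [derivative_of_natDegree_zero h0, mul_zero, natDegree_zero]
      omega
    · have := natDegree_mul_le (p := Y.D) (q := derivative Y.N)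
      omega
  rw [M]
  omega

theorem t1048_N0 : Y.N ≠ 0 := by
  obtain ⟨b, hb⟩ := Y.ne
  intro h
  have := Y.t1048_N hb
  rw [h, eval_zero] at this
  exact pow_ne_zero 2 (Y.Db_ne fun _ => rfl) this.symm

theorem t1048_M0 : Y.M ≠ 0 := by
  obtain ⟨b, hb⟩ := Y.ne
  intro h
  have := Y.t1048_Mb hb
  rw [h, eval_zero] at this
  exact mul_ne_zero two_ne_zero (pow_ne_zero 3 (Y.Db_ne fun _ => rfl)) this.symm

theorem t1048_W0 {w : ℂ} (hw : w ≠ 4) : Y.M ^ 2 - C w * Y.N ^ 3 ≠ 0 := by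
  obtain ⟨b, hb⟩ := Y.ne
  intro h
  have h1 := congrArg (eval b) h
  simp only [eval_sub, eval_pow, eval_mul, eval_C, eval_zero, Y.t1048_Mb hb, Y.t1048_N hb] at h1
  refine mul_ne_zero (sub_ne_zero.2 hw.symm) (pow_ne_zero 6 (Y.Db_ne (b := b) fun _ => rfl)) ?_
  linear_combination h1

theorem N_card (he : 1 ≤ e) {T : Finset ℂ} (h : ∀ z ∈ T, Y.N.eval z = 0) :
    T.card < 2 * Y.K.card := by
  have h1 := Cyc.t1048_card Y.t1048_N0 h
  have h2 := Y.t1048_dN he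
  omega

theorem W_card (he : 1 ≤ e) {w : ℂ} (hw : w ≠ 4) {T : Finset ℂ}
    (h : ∀ z ∈ T, (Y.M ^ 2 - C w * Y.N ^ 3).eval z = 0) : T.card < 6 * Y.K.card := by
  have h1 := Cyc.t1048_card (Y.t1048_W0 hw) h
  have h2 := Y.t1048_dN he
  have h3 := Y.t1048_dM he
  have h4 := natDegree_pow_le (p := Y.M) (n := 2)
  have h5 := natDegree_pow_le (p := Y.N) (n := 3)
  have h6 := natDegree_C_mul_le w (Y.N ^ 3)
  have h7 := natDegree_sub_le (Y.M ^ 2) (C w * Y.N ^ 3)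
  omega

/-- The special points. -/
theorem special (he : 1 ≤ e) : ∃ Z : Finset ℂ, Z.card ≤ 12 * Y.K.card ∧ ∀ z, z ∈ Z ↔
    (z ∈ Y.B ∨ Y.N.eval z = 0 ∨ Y.M.eval z = 0 ∨ (Y.M ^ 2 - C 1 * Y.N ^ 3).eval z = 0) := by
  have hw : (1 : ℂ) ≠ 4 := by norm_num
  refine ⟨Y.B ∪ (Y.N.roots.toFinset ∪ (Y.M.roots.toFinset ∪
    (Y.M ^ 2 - C 1 * Y.N ^ 3).roots.toFinset)), ?_, fun z => ?_⟩
  · have h1 := Y.N_card he (T := Y.N.roots.toFinset) fun z hz =>
      (mem_roots Y.t1048_N0).1 (Multiset.mem_toFinset.1 hz)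
    have h2 := Cyc.t1048_card Y.t1048_M0 (T := Y.M.roots.toFinset) fun z hz =>
      (mem_roots Y.t1048_M0).1 (Multiset.mem_toFinset.1 hz)
    have h3 := Y.W_card he hw (T := (Y.M ^ 2 - C 1 * Y.N ^ 3).roots.toFinset) fun z hz =>
      (mem_roots (Y.t1048_W0 hw)).1 (Multiset.mem_toFinset.1 hz)
    have h4 := Y.t1048_dM he
    have h5 := Y.card_B
    refine (Finset.card_union_le _ _).trans ((Nat.add_le_add_left ((Finset.card_union_le _ _).trans
      (Nat.add_le_add_left (Finset.card_union_le _ _) _)) _).trans ?_)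
    omega
  · simp only [Finset.mem_union, Multiset.mem_toFinset, mem_roots Y.t1048_N0, mem_roots Y.t1048_M0,
      mem_roots (Y.t1048_W0 hw), IsRoot.def]

/-- The differential is invariant. -/
theorem q_id (he : 1 ≤ e) {y : ℂ} (hy : y ∉ Y.B) (hc : y ≠ Y.c) : Y.q y = Tr e Y.c Y.q y := by
  have he' : (e : ℂ) ≠ 0 := Nat.cast_ne_zero.mpr (by omega)
  have h0 : y ≠ fq e Y.c Y.α := by
    rw [Y.αfix]
    exact fun h => hy (h ▸ Y.αB)
  have h1 : Tr e Y.c Y.q y = Tr e Y.c Y.o.q y -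
      (Y.s * Tr e Y.c (fun z => ((z - Y.α) ^ 2)⁻¹) y +
        Y.o.S * Tr e Y.c (fun z => (z - Y.α)⁻¹) y) := by
    simp only [Tr, tm, Y.q_split, Finset.mul_sum, ← Finset.sum_add_distrib,
      ← Finset.sum_sub_distrib]
    exact Finset.sum_congr rfl fun k _ => by ring
  have h2 := Y.o.q_id he (fun h => hy (Y.KB h)) hc
  have h3 : lam e Y.α ≠ 0 :=
    mul_ne_zero (Nat.cast_ne_zero.mpr (Nat.succ_ne_zero e)) (pow_ne_zero _ Y.α0)
  have h4 := Y.α0
  rw [h1, Cyc.t1050_pole2 he Y.α0 hc h0, Tr_pole he Y.α0 hc h0, ← lam, Y.αfix, Y.q_split, h2, s]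
  generalize (y - Y.c)⁻¹ = u
  generalize (y - Y.α)⁻¹ = v
  field_simp
  ring

theorem bounds (he : 1 ≤ e) (h : ‖Y.ρ‖ < 2) : ‖Y.c‖ ≤ 6 ∧ ∀ b ∈ Y.K, ‖b‖ ≤ 3 := Y.o.bounds he h

end Cy

end Pool.Agent.MP_1071ec_an
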